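import Mathlib

/-!
# Treks in directed acyclic graphs
-/

set_option autoImplicit false

namespace Pool.Agent.X21.Dag

open MvPolynomial

variable {n : ℕ}

/-- The polynomial ring in the `a_i` and the `λ_kl`. -/
abbrev Par (n : ℕ) : Type := MvPolynomial (Fin n ⊕ (Fin n × Fin n)) ℂ

/-- `l` is the list of the vertices of a directed path from `t` to `u`, from `u` to `t`. -/
inductive IsUp (E : Fin n → Fin n → Prop) : Fin n → Fin n → List (Fin n) → Prop
  | nil (t : Fin n) : IsUp E t t [t]
  | cons {u v t : Fin n} {l : List (Fin n)} (h : E v u) (hl : IsUp E v t l) : IsUp E u t (u :: l)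

/-- A trek between `i` and `j` with top `t`, given as `(t, l, r)`: directed paths `l` from `t` to
`i` and `r` from `t` to `j` which have no vertex but `t` in common. -/
def treks (E : Fin n → Fin n → Prop) (i j : Fin n) :
    Set (Fin n × List (Fin n) × List (Fin n)) :=
  {P | IsUp E i P.1 P.2.1 ∧ IsUp E j P.1 P.2.2 ∧ ∀ v ∈ P.2.1, v ∈ P.2.2 → v = P.1}

/-- the number of edges -/
def len (P : Fin n × List (Fin n) × List (Fin n)) : ℕ := (P.2.1.length - 1) + (P.2.2.length - 1)

/-- the product of the `λ_kl` over the edges `k → l` of a path -/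
noncomputable def pathMon : List (Fin n) → Par n
  | [] => 1
  | [_] => 1
  | x :: y :: l => X (Sum.inr (y, x)) * pathMon (y :: l)

/-- the monomial of a trek -/
noncomputable def trekMon (P : Fin n × List (Fin n) × List (Fin n)) : Par n :=
  X (Sum.inl P.1) * pathMon P.2.1 * pathMon P.2.2

/-- the exponent -/
noncomputable def pathExp : List (Fin n) → (Fin n ⊕ (Fin n × Fin n) →₀ ℕ)
  | [] => 0
  | [_] => 0
  | x :: y :: l => Finsupp.single (Sum.inr (y, x)) 1 + pathExp (y :: l)

noncomputable def trekExp (P : Fin n × List (Fin n) × List (Fin n)) :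
    Fin n ⊕ (Fin n × Fin n) →₀ ℕ :=
  Finsupp.single (Sum.inl P.1) 1 + pathExp P.2.1 + pathExp P.2.2

lemma pathMon_eq : ∀ l : List (Fin n), pathMon l = monomial (pathExp l) 1
  | [] => rfl
  | [_] => rfl
  | x :: y :: l => by
    rw [pathMon, pathExp, pathMon_eq (y :: l), X, monomial_mul, one_mul]

lemma trekMon_eq (P : Fin n × List (Fin n) × List (Fin n)) :
    trekMon P = monomial (trekExp P) 1 := by
  rw [trekMon, trekExp, pathMon_eq, pathMon_eq, X, monomial_mul, monomial_mul, one_mul, one_mul]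

variable {E : Fin n → Fin n → Prop}

lemma IsUp.head {u t : Fin n} {l : List (Fin n)} (h : IsUp E u t l) : l.head? = some u := by
  cases h <;> rfl

lemma IsUp.ne {u t : Fin n} {l : List (Fin n)} (h : IsUp E u t l) : l ≠ [] := by
  cases h <;> simp

lemma IsUp.start_mem {u t : Fin n} {l : List (Fin n)} (h : IsUp E u t l) : u ∈ l := by
  cases h <;> simp

lemma IsUp.le (hE : ∀ i j, E i j → i < j) {u t : Fin n} {l : List (Fin n)} (h : IsUp E u t l) :
    t ≤ u := by
  induction h with
  | nil => exact le_rfl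
  | cons h hl ih => exact ih.trans (hE _ _ h).le

lemma IsUp.mem_le (hE : ∀ i j, E i j → i < j) {u t : Fin n} {l : List (Fin n)}
    (h : IsUp E u t l) : ∀ x ∈ l, x ≤ u := by
  induction h with
  | nil => intro x hx; rw [List.mem_singleton] at hx; exact hx.le
  | cons h hl ih =>
    intro x hx
    rcases List.mem_cons.mp hx with h1 | h1
    · exact h1.le
    · exact (ih x h1).trans (hE _ _ h).le

lemma IsUp.length_le (hE : ∀ i j, E i j → i < j) {u t : Fin n} {l : List (Fin n)}
    (h : IsUp E u t l) : l.length ≤ (u : ℕ) + 1 := by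
  induction h with
  | nil => simp
  | @cons u v t l h hl ih =>
    have : (v : ℕ) < u := hE _ _ h
    rw [List.length_cons]
    omega

lemma IsUp.pathExp_zero (hE : ∀ i j, E i j → i < j) {u t : Fin n} {l : List (Fin n)}
    (h : IsUp E u t l) {v j : Fin n} (hj : u < j) : pathExp l (Sum.inr (v, j)) = 0 := by
  induction h with
  | nil => rfl
  | @cons u w t l h hl ih =>
    have h1 := ih ((hE _ _ h).trans hj)
    cases hl with
    | nil =>
      rw [pathExp, pathExp, add_zero, Finsupp.single_eq_of_ne]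
      intro h2
      have := congrArg Prod.snd (Sum.inr.inj h2)
      exact hj.ne' this
    | cons h' hl' =>
      rw [pathExp, Finsupp.add_apply, h1, add_zero, Finsupp.single_eq_of_ne]
      intro h2
      have := congrArg Prod.snd (Sum.inr.inj h2)
      exact hj.ne' this

lemma treks_finite (hE : ∀ i j, E i j → i < j) (i j : Fin n) : (treks E i j).Finite := by
  have h1 : (Set.univ ×ˢ ({l : List (Fin n) | l.length ≤ n} ×ˢ {l : List (Fin n) | l.length ≤ n}) :
      Set (Fin n × List (Fin n) × List (Fin n))).Finite :=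
    Set.finite_univ.prod ((List.finite_length_le (Fin n) n).prod (List.finite_length_le (Fin n) n))
  refine h1.subset ?_
  rintro ⟨t, l, r⟩ ⟨h2, h3, -⟩
  refine ⟨Set.mem_univ _, ?_, ?_⟩
  · have := h2.length_le hE
    change l.length ≤ n
    have := i.2
    simp only at *
    omega
  · have := h3.length_le hE
    change r.length ≤ n
    have := j.2
    simp only at *
    omega

lemma treks_swap {i j t : Fin n} {l r : List (Fin n)} :
    (t, l, r) ∈ treks E i j ↔ (t, r, l) ∈ treks E j i :=
  ⟨fun ⟨h1, h2, h3⟩ => ⟨h2, h1, fun v hv hv' => h3 v hv' hv⟩,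
    fun ⟨h1, h2, h3⟩ => ⟨h2, h1, fun v hv hv' => h3 v hv' hv⟩⟩

lemma len_swap (t : Fin n) (l r : List (Fin n)) : len (t, l, r) = len (t, r, l) := by
  simp only [len]; omega

lemma trekExp_swap (t : Fin n) (l r : List (Fin n)) : trekExp (t, l, r) = trekExp (t, r, l) := by
  simp only [trekExp]; abel

lemma trekMon_swap (t : Fin n) (l r : List (Fin n)) : trekMon (t, l, r) = trekMon (t, r, l) := by
  simp only [trekMon]; ring

lemma treks_self (hE : ∀ i j, E i j → i < j) {i : Fin n} {P : Fin n × List (Fin n) × List (Fin n)} :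
    P ∈ treks E i i ↔ P = (i, [i], [i]) := by
  have key : ∀ l, IsUp E i i l → l = [i] := by
    intro l h
    cases h with
    | nil => rfl
    | cons h hl => exact absurd (hl.le hE) (not_le.mpr (hE _ _ h))
  constructor
  · obtain ⟨t, l, r⟩ := P
    rintro ⟨h1, h2, h3⟩
    have ht : i = t := h3 i h1.start_mem h2.start_mem
    subst ht
    rw [key l h1, key r h2]
  · rintro rfl
    refine ⟨IsUp.nil i, IsUp.nil i, ?_⟩
    intro v hv _
    simpa using hv

/-- removing the last edge -/
lemma treks_cons (hE : ∀ i j, E i j → i < j) {i j : Fin n} (hij : i < j)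
    {P : Fin n × List (Fin n) × List (Fin n)} :
    P ∈ treks E i j ↔ ∃ v, E v j ∧ ∃ Q ∈ treks E i v, P = (Q.1, Q.2.1, j :: Q.2.2) := by
  constructor
  · obtain ⟨t, l, r⟩ := P
    rintro ⟨h1, h2, h3⟩
    simp only at h1 h2 h3
    cases h2 with
    | nil => exact absurd (h1.le hE) (not_le.mpr hij)
    | @cons _ v _ r' h hl =>
      refine ⟨v, h, (t, l, r'), ⟨h1, hl, ?_⟩, rfl⟩
      intro x hx hx'
      exact h3 x hx (List.mem_cons_of_mem _ hx')
  · rintro ⟨v, h, ⟨t, l, r'⟩, ⟨h1, h2, h3⟩, rfl⟩
    refine ⟨h1, IsUp.cons h h2, ?_⟩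
    intro x hx hx'
    rcases List.mem_cons.mp hx' with h4 | h4
    · exfalso
      have := h1.mem_le hE x hx
      rw [h4] at this
      exact absurd this (not_le.mpr hij)
    · exact h3 x hx h4

/-- all treks, as a finite set -/
noncomputable def TF (hE : ∀ i j, E i j → i < j) (i j : Fin n) :
    Finset (Fin n × List (Fin n) × List (Fin n)) := (treks_finite hE i j).toFinset

lemma mem_TF (hE : ∀ i j, E i j → i < j) {i j : Fin n}
    {P : Fin n × List (Fin n) × List (Fin n)} : P ∈ TF hE i j ↔ P ∈ treks E i j :=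
  Set.Finite.mem_toFinset _

lemma len_cons {Q : Fin n × List (Fin n) × List (Fin n)} {i v : Fin n} (hQ : Q ∈ treks E i v)
    (j : Fin n) : len (Q.1, Q.2.1, j :: Q.2.2) = len Q + 1 := by
  have h1 := hQ.2.1.ne
  have h2 : 0 < Q.2.2.length := List.length_pos_iff.mpr h1
  simp only [len, List.length_cons]
  omega

lemma trekExp_cons {Q : Fin n × List (Fin n) × List (Fin n)} {i v : Fin n}
    (hQ : Q ∈ treks E i v) (j : Fin n) :
    trekExp (Q.1, Q.2.1, j :: Q.2.2) = Finsupp.single (Sum.inr (v, j)) 1 + trekExp Q := by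
  obtain ⟨t, l, r⟩ := Q
  obtain ⟨h1, h2, -⟩ := hQ
  simp only at h1 h2
  simp only [trekExp]
  cases h2 with
  | nil => simp only [pathExp]; abel
  | cons h hl => simp only [pathExp]; abel

lemma trekMon_cons {Q : Fin n × List (Fin n) × List (Fin n)} {i v : Fin n}
    (hQ : Q ∈ treks E i v) (j : Fin n) :
    trekMon (Q.1, Q.2.1, j :: Q.2.2) = X (Sum.inr (v, j)) * trekMon Q := by
  rw [trekMon_eq, trekMon_eq, trekExp_cons hQ, X, monomial_mul, one_mul]

/-- the sum over the treks -/
lemma sum_treks (hE : ∀ i j, E i j → i < j) [DecidableRel E] {i j : Fin n} (hij : i < j)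
    {A : Type} [AddCommMonoid A] (F : Fin n × List (Fin n) × List (Fin n) → A) :
    ∑ P ∈ TF hE i j, F P
      = ∑ v : {v // E v j}, ∑ Q ∈ TF hE i v, F (Q.1, Q.2.1, j :: Q.2.2) := by
  classical
  rw [Finset.sum_sigma']
  symm
  refine Finset.sum_bij (fun x _ => (x.2.1, x.2.2.1, j :: x.2.2.2)) ?_ ?_ ?_ ?_
  · rintro ⟨v, Q⟩ hQ
    rw [Finset.mem_sigma] at hQ
    rw [mem_TF, treks_cons hE hij]
    exact ⟨v, v.2, Q, (mem_TF hE).mp hQ.2, rfl⟩
  · rintro ⟨v, Q⟩ hQ ⟨v', Q'⟩ hQ' h
    rw [Finset.mem_sigma] at hQ hQ'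
    have h1 := ((mem_TF hE).mp hQ.2).2.1.head
    have h2 := ((mem_TF hE).mp hQ'.2).2.1.head
    simp only [Prod.mk.injEq, List.cons.injEq, true_and] at h
    obtain ⟨e1, e2, e3⟩ := h
    simp only at h1 h2
    rw [e3, h2] at h1
    have hv : v' = v := Subtype.ext (Option.some.inj h1)
    subst hv
    have hQQ : Q = Q' := Prod.ext e1 (Prod.ext e2 e3)
    subst hQQ
    rfl
  · intro P hP
    rw [mem_TF, treks_cons hE hij] at hP
    obtain ⟨v, hv, Q, hQ, rfl⟩ := hP
    exact ⟨⟨⟨v, hv⟩, Q⟩, by rw [Finset.mem_sigma]; exact ⟨Finset.mem_univ _, (mem_TF hE).mpr hQ⟩,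
      rfl⟩
  · intro x _
    rfl

/-- different treks have different monomials -/
lemma trekExp_inj (hE : ∀ i j, E i j → i < j) : ∀ (m : ℕ) (i j : Fin n), (i : ℕ) + j = m →
    ∀ P ∈ treks E i j, ∀ Q ∈ treks E i j, trekExp P = trekExp Q → P = Q := by
  intro m
  induction m using Nat.strong_induction_on with
  | _ m ih =>
    have key : ∀ i j : Fin n, (i : ℕ) + j = m → i < j →
        ∀ P ∈ treks E i j, ∀ Q ∈ treks E i j, trekExp P = trekExp Q → P = Q := by
      intro i j hm hij P hP Q hQ h
      obtain ⟨v, hv, P', hP', rfl⟩ := (treks_cons hE hij).mp hP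
      obtain ⟨w, hw, Q', hQ', rfl⟩ := (treks_cons hE hij).mp hQ
      rw [trekExp_cons hP', trekExp_cons hQ'] at h
      have hz : ∀ (u : Fin n) (S : Fin n × List (Fin n) × List (Fin n)), u < j →
          S ∈ treks E i u → trekExp S (Sum.inr (v, j)) = 0 := by
        intro u S hu hS
        rw [trekExp, Finsupp.add_apply, Finsupp.add_apply, hS.1.pathExp_zero hE hij,
          hS.2.1.pathExp_zero hE hu, add_zero, add_zero, Finsupp.single_eq_of_ne]
        simp
      have hvw : v = w := by
        by_contra hne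
        have h1 := DFunLike.congr_fun h (Sum.inr (v, j))
        rw [Finsupp.add_apply, Finsupp.add_apply, hz v P' (hE _ _ hv) hP',
          hz w Q' (hE _ _ hw) hQ', Finsupp.single_eq_same, Finsupp.single_eq_of_ne] at h1
        · omega
        · intro h2
          exact hne (congrArg Prod.fst (Sum.inr.inj h2))
      subst hvw
      have h2 := add_left_cancel h
      have hlt : (v : ℕ) < j := hE _ _ hv
      have h3 := ih ((i : ℕ) + v) (by omega) i v rfl P' hP' Q' hQ' h2
      rw [h3]
    intro i j hm P hP Q hQ h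
    rcases lt_trichotomy i j with hij | hij | hij
    · exact key i j hm hij P hP Q hQ h
    · subst hij
      rw [(treks_self hE).mp hP, (treks_self hE).mp hQ]
    · obtain ⟨t, l, r⟩ := P
      obtain ⟨t', l', r'⟩ := Q
      have h1 := key j i (by omega) hij (t, r, l) (treks_swap.mp hP) (t', r', l')
        (treks_swap.mp hQ) (by rw [← trekExp_swap, h, trekExp_swap])
      simp only [Prod.mk.injEq] at h1 ⊢
      exact ⟨h1.1, h1.2.2, h1.2.1⟩

end Pool.Agent.X21.Dag
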