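import Mathlib
import Pool.Agent.X21.Dag.D1

/-!
# Lowest terms
-/

set_option autoImplicit false

namespace Pool.Agent.X21.Dag

open MvPolynomial

section LT

variable {A : Type} [CommRing A]

/-- `p = t ^ w (u + t q)` -/
def LT (p : Polynomial A) (w : ℕ) (u : A) : Prop :=
  ∃ q : Polynomial A, p = Polynomial.X ^ w * (Polynomial.C u + Polynomial.X * q)

lemma LT.mul {p p' : Polynomial A} {w w' : ℕ} {u u' : A} (h : LT p w u) (h' : LT p' w' u') :
    LT (p * p') (w + w') (u * u') := by
  obtain ⟨q, rfl⟩ := h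
  obtain ⟨q', rfl⟩ := h'
  refine ⟨Polynomial.C u * q' + q * Polynomial.C u' + Polynomial.X * q * q', ?_⟩
  rw [map_mul, pow_add]
  ring

lemma LT.one : LT (1 : Polynomial A) 0 1 := ⟨0, by simp⟩

lemma LT.C (u : A) : LT (Polynomial.C u) 0 u := ⟨0, by simp⟩

lemma LT.pow {p : Polynomial A} {w : ℕ} {u : A} (h : LT p w u) (k : ℕ) :
    LT (p ^ k) (k * w) (u ^ k) := by
  induction k with
  | zero => simpa using LT.one
  | succ k ih =>
    have := ih.mul h
    rw [← pow_succ, ← pow_succ] at this
    convert this using 1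
    ring

lemma LT.prod {ι : Type} (s : Finset ι) {p : ι → Polynomial A} {w : ι → ℕ} {u : ι → A}
    (h : ∀ i ∈ s, LT (p i) (w i) (u i)) : LT (∏ i ∈ s, p i) (∑ i ∈ s, w i) (∏ i ∈ s, u i) := by
  classical
  induction s using Finset.induction_on with
  | empty => simpa using LT.one
  | insert a s ha ih =>
    rw [Finset.prod_insert ha, Finset.sum_insert ha, Finset.prod_insert ha]
    exact (h a (Finset.mem_insert_self a s)).mul
      (ih fun i hi => h i (Finset.mem_insert_of_mem hi))

lemma LT.coeff_lt {p : Polynomial A} {w : ℕ} {u : A} (h : LT p w u) {d : ℕ} (hd : d < w) :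
    p.coeff d = 0 := by
  obtain ⟨q, rfl⟩ := h
  rw [mul_comm, Polynomial.coeff_mul_X_pow', if_neg (by omega)]

lemma LT.coeff {p : Polynomial A} {w : ℕ} {u : A} (h : LT p w u) : p.coeff w = u := by
  obtain ⟨q, rfl⟩ := h
  rw [mul_comm, Polynomial.coeff_mul_X_pow', if_pos le_rfl]
  simp

lemma LT.unique [Algebra ℂ A] {p p' : Polynomial A} {w w' : ℕ} {u u' : A} (h : LT p w u)
    (h' : LT p' w' u') (hu : u ≠ 0) (hu' : u' ≠ 0) {κ : ℂ} (hκ : κ ≠ 0) (e : p = κ • p') :
    w = w' ∧ u = κ • u' := by
  rcases lt_trichotomy w w' with h1 | h1 | h1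
  · exfalso
    apply hu
    rw [← h.coeff, e, Polynomial.coeff_smul, h'.coeff_lt h1, smul_zero]
  · subst h1
    refine ⟨rfl, ?_⟩
    rw [← h.coeff, e, Polynomial.coeff_smul, h'.coeff]
  · exfalso
    apply hu'
    have h2 : κ • u' = 0 := by
      rw [← h'.coeff, ← Polynomial.coeff_smul, ← e, h.coeff_lt h1]
    have h3 : u' = κ⁻¹ • (κ • u') := by rw [smul_smul, inv_mul_cancel₀ hκ, one_smul]
    rw [h3, h2, smul_zero]

/-- injectivity from lowest terms -/
lemma inj_of_LT [Algebra ℂ A] {ι : Type} (F : MvPolynomial ι ℂ →ₐ[ℂ] Polynomial A)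
    (U : MvPolynomial ι ℂ →ₐ[ℂ] A) (w : ι → ℕ) (h : ∀ k, LT (F (X k)) (w k) (U (X k)))
    (hU : Function.Injective U) : Function.Injective F := by
  classical
  have hm : ∀ m : ι →₀ ℕ, LT (F (monomial m 1)) (∑ k ∈ m.support, m k * w k)
      (U (monomial m 1)) := by
    intro m
    rw [monomial_eq]
    simp only [C_1, one_mul, Finsupp.prod, map_prod, map_pow]
    exact LT.prod _ fun k _ => (h k).pow (m k)
  set W : (ι →₀ ℕ) → ℕ := fun m => ∑ k ∈ m.support, m k * w k with hW
  rw [injective_iff_map_eq_zero]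
  intro g hg
  by_contra hne
  have hs : g.support.Nonempty := by
    rw [Finset.nonempty_iff_ne_empty, Ne, support_eq_empty]
    exact hne
  obtain ⟨m₀, hm₀, hmin⟩ := Finset.exists_min_image g.support W hs
  set g₀ : MvPolynomial ι ℂ := ∑ m ∈ g.support.filter (fun m => W m = W m₀),
    monomial m (coeff m g) with hg₀
  have hg₀ne : g₀ ≠ 0 := by
    intro h0
    have h1 : coeff m₀ g₀ = coeff m₀ g := by
      have hmem : m₀ ∈ g.support.filter (fun m => W m = W m₀) := by
        rw [Finset.mem_filter]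
        exact ⟨hm₀, rfl⟩
      rw [hg₀, coeff_sum, Finset.sum_eq_single_of_mem m₀ hmem]
      · rw [coeff_monomial, if_pos rfl]
      · intro b _ hb
        rw [coeff_monomial, if_neg hb]
    rw [h0, coeff_zero] at h1
    exact (mem_support_iff.mp hm₀) h1.symm
  apply hg₀ne
  apply hU
  rw [map_zero]
  have hsm : ∀ m : ι →₀ ℕ, ∀ c : ℂ, (monomial m c : MvPolynomial ι ℂ) = c • monomial m 1 := by
    intro m c
    rw [smul_monomial, smul_eq_mul, mul_one]
  have e1 : (F g).coeff (W m₀) = U g₀ := by
    conv_lhs => rw [g.as_sum, map_sum, Polynomial.finsetSum_coeff]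
    rw [hg₀, map_sum, Finset.sum_filter]
    refine Finset.sum_congr rfl fun m hmm => ?_
    rw [hsm m (coeff m g), map_smul, Polynomial.coeff_smul, map_smul]
    by_cases h1 : W m = W m₀
    · rw [if_pos h1, ← h1]
      congr 1
      exact (hm m).coeff
    · rw [if_neg h1, (hm m).coeff_lt (lt_of_le_of_ne (hmin m hmm) (Ne.symm h1)), smul_zero]
  rw [← e1, hg, Polynomial.coeff_zero]

end LT

variable {n : ℕ} {E : Fin n → Fin n → Prop}

/-- `λ ↦ t λ` -/
noncomputable def scale (n : ℕ) : Par n →ₐ[ℂ] Polynomial (Par n) :=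
  aeval (Sum.elim (fun i => Polynomial.C (X (Sum.inl i)))
    (fun e => Polynomial.X * Polynomial.C (X (Sum.inr e))))

lemma scale_path : ∀ l : List (Fin n),
    scale n (pathMon l) = Polynomial.X ^ (l.length - 1) * Polynomial.C (pathMon l)
  | [] => by simp [pathMon]
  | [_] => by simp [pathMon]
  | x :: y :: l => by
    rw [pathMon, map_mul, scale_path (y :: l), scale, aeval_X, Sum.elim_inr, map_mul]
    simp only [List.length_cons, Nat.add_sub_cancel]
    rw [pow_succ]
    ring

lemma scale_trek (P : Fin n × List (Fin n) × List (Fin n)) :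
    scale n (trekMon P) = Polynomial.X ^ (len P) * Polynomial.C (trekMon P) := by
  rw [trekMon, map_mul, map_mul, scale_path, scale_path, map_mul, map_mul, len, pow_add]
  rw [scale, aeval_X, Sum.elim_inl]
  ring

/-- the covariance: the sum over all treks between `i` and `j` -/
noncomputable def cov (E : Fin n → Fin n → Prop) (i j : Fin n) : Par n :=
  ∑ᶠ P ∈ treks E i j, trekMon P

section

variable (hE : ∀ i j, E i j → i < j)

include hE

lemma cov_eq (i j : Fin n) : cov E i j = ∑ P ∈ TF hE i j, trekMon P := by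
  rw [cov, finsum_mem_eq_finite_toFinset_sum _ (treks_finite hE i j)]
  rfl

lemma cov_swap (i j : Fin n) : cov E i j = cov E j i := by
  classical
  rw [cov_eq hE, cov_eq hE]
  refine Finset.sum_bij' (fun P _ => (P.1, P.2.2, P.2.1)) (fun P _ => (P.1, P.2.2, P.2.1))
    ?_ ?_ ?_ ?_ ?_
  · intro P hP
    rw [mem_TF] at hP ⊢
    exact treks_swap.mp hP
  · intro P hP
    rw [mem_TF] at hP ⊢
    exact treks_swap.mp hP
  · intro P _; rfl
  · intro P _; rfl
  · intro P _
    exact trekMon_swap P.1 P.2.1 P.2.2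

lemma cov_rec [DecidableRel E] {i j : Fin n} (hij : i < j) :
    cov E i j = ∑ v : {v // E v j}, X (Sum.inr ((v : Fin n), j)) * cov E i v := by
  rw [cov_eq hE, sum_treks hE hij]
  refine Finset.sum_congr rfl fun v _ => ?_
  rw [cov_eq hE, Finset.mul_sum]
  refine Finset.sum_congr rfl fun Q hQ => ?_
  rw [trekMon_cons ((mem_TF hE).mp hQ)]

lemma cov_self (i : Fin n) : cov E i i = X (Sum.inl i) := by
  rw [cov_eq hE]
  have h : TF hE i i = {(i, [i], [i])} := by
    ext P
    rw [mem_TF, treks_self hE, Finset.mem_singleton]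
  rw [h, Finset.sum_singleton, trekMon, pathMon, mul_one, mul_one]

end

/-- the length of the shortest treks -/
noncomputable def dist (E : Fin n → Fin n → Prop) (i j : Fin n) : ℕ := sInf (len '' treks E i j)

lemma dist_le {i j : Fin n} {P : Fin n × List (Fin n) × List (Fin n)} (hP : P ∈ treks E i j) :
    dist E i j ≤ len P := Nat.sInf_le ⟨P, hP, rfl⟩

lemma exists_dist {i j : Fin n} (h : (treks E i j).Nonempty) :
    ∃ P ∈ treks E i j, len P = dist E i j := by
  obtain ⟨P, hP, h1⟩ := Nat.sInf_mem (h.image len)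
  exact ⟨P, hP, h1⟩

lemma dist_swap (i j : Fin n) : dist E i j = dist E j i := by
  have : len '' treks E i j = len '' treks E j i := by
    ext m
    constructor
    · rintro ⟨P, hP, rfl⟩
      exact ⟨(P.1, P.2.2, P.2.1), treks_swap.mp hP, (len_swap _ _ _).symm⟩
    · rintro ⟨P, hP, rfl⟩
      exact ⟨(P.1, P.2.2, P.2.1), treks_swap.mp hP, (len_swap _ _ _).symm⟩
  rw [dist, dist, this]

/-- the sum over the shortest treks -/
noncomputable def low (hE : ∀ i j, E i j → i < j) (i j : Fin n) : Par n :=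
  ∑ P ∈ (TF hE i j).filter (fun P => len P = dist E i j), trekMon P

section

variable (hE : ∀ i j, E i j → i < j)

include hE

lemma LT_cov (i j : Fin n) : LT (scale n (cov E i j)) (dist E i j) (low hE i j) := by
  classical
  refine ⟨∑ P ∈ (TF hE i j).filter (fun P => ¬ len P = dist E i j),
    Polynomial.X ^ (len P - dist E i j - 1) * Polynomial.C (trekMon P), ?_⟩
  rw [cov_eq hE, map_sum, ← Finset.sum_filter_add_sum_filter_not _
    (fun P => len P = dist E i j), mul_add, low, map_sum, Finset.mul_sum, Finset.mul_sum,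
    Finset.mul_sum]
  congr 1
  · refine Finset.sum_congr rfl fun P hP => ?_
    rw [Finset.mem_filter] at hP
    rw [scale_trek, hP.2]
  · refine Finset.sum_congr rfl fun P hP => ?_
    rw [Finset.mem_filter, mem_TF] at hP
    have h1 := dist_le hP.1
    rw [scale_trek, ← mul_assoc, ← mul_assoc, ← pow_succ, ← pow_add]
    congr 2
    have := hP.2
    omega

/-- evaluation at one -/
noncomputable def ev (n : ℕ) : Par n →ₐ[ℂ] ℂ := aeval (fun _ => (1 : ℂ))

omit hE in
lemma ev_monomial (m : Fin n ⊕ (Fin n × Fin n) →₀ ℕ) (c : ℂ) : ev n (monomial m c) = c := by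
  rw [ev, aeval_monomial]
  simp [Finsupp.prod]

omit hE in
lemma ev_trek (P : Fin n × List (Fin n) × List (Fin n)) : ev n (trekMon P) = 1 := by
  rw [trekMon_eq, ev_monomial]

lemma cov_ne {i j : Fin n} : cov E i j ≠ 0 ↔ (treks E i j).Nonempty := by
  constructor
  · intro h
    by_contra hcon
    rw [Set.not_nonempty_iff_eq_empty] at hcon
    apply h
    rw [cov, hcon]
    simp
  · rintro ⟨P, hP⟩ h
    have h1 := congrArg (ev n) h
    rw [cov_eq hE, map_sum, map_zero, Finset.sum_congr rfl (fun P _ => ev_trek P),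
      Finset.sum_const, nsmul_eq_mul, mul_one, Nat.cast_eq_zero, Finset.card_eq_zero] at h1
    have h2 := (mem_TF hE).mpr hP
    rw [h1] at h2
    exact absurd h2 (Finset.notMem_empty _)

lemma low_ne {i j : Fin n} (h : (treks E i j).Nonempty) : low hE i j ≠ 0 := by
  classical
  intro h0
  obtain ⟨P, hP, hd⟩ := exists_dist h
  have h1 := congrArg (ev n) h0
  rw [low, map_sum, map_zero, Finset.sum_congr rfl (fun P _ => ev_trek P),
    Finset.sum_const, nsmul_eq_mul, mul_one, Nat.cast_eq_zero, Finset.card_eq_zero] at h1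
  have h2 : P ∈ (TF hE i j).filter (fun P => len P = dist E i j) :=
    Finset.mem_filter.mpr ⟨(mem_TF hE).mpr hP, hd⟩
  rw [h1] at h2
  exact absurd h2 (Finset.notMem_empty _)

lemma dist_self (i : Fin n) : dist E i i = 0 := by
  obtain ⟨P, hP, hd⟩ := exists_dist (E := E) (i := i) (j := i) ⟨(i, [i], [i]), (treks_self hE).mpr rfl⟩
  rw [treks_self hE] at hP
  rw [← hd, hP]
  rfl

lemma low_self (i : Fin n) : low hE i i = X (Sum.inl i) := by
  have h : TF hE i i = {(i, [i], [i])} := by
    ext P
    rw [mem_TF, treks_self hE, Finset.mem_singleton]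
  rw [low, h, Finset.filter_singleton, if_pos, Finset.sum_singleton, trekMon, pathMon, mul_one,
    mul_one]
  rw [dist_self hE]
  rfl

omit hE in
lemma dist_pos {i j : Fin n} (hij : i ≠ j) (h : (treks E i j).Nonempty) : 0 < dist E i j := by
  obtain ⟨P, hP, hd⟩ := exists_dist h
  rw [← hd]
  by_contra hcon
  obtain ⟨t, l, r⟩ := P
  obtain ⟨h1, h2, h3⟩ := hP
  simp only at h1 h2 h3
  simp only [len, not_lt, nonpos_iff_eq_zero, add_eq_zero] at hcon
  apply hij
  cases h1 with
  | nil =>
    cases h2 with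
    | nil => rfl
    | cons h' hl' =>
      have := List.length_pos_iff.mpr hl'.ne
      simp only [List.length_cons] at hcon
      omega
  | cons h' hl' =>
    have := List.length_pos_iff.mpr hl'.ne
    simp only [List.length_cons] at hcon
    omega

end

end Pool.Agent.X21.Dag
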