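import Mathlib
import Pool.Agent.X21.Dag.D2

/-!
# The two homomorphisms
-/

set_option autoImplicit false

namespace Pool.Agent.X21.Dag

open MvPolynomial

variable {n : ℕ} {E : Fin n → Fin n → Prop}

/-- the simple trek rule -/
noncomputable def phi (E : Fin n → Fin n → Prop) : MvPolynomial (Sym2 (Fin n)) ℂ →ₐ[ℂ] Par n :=
  aeval (fun s => cov E s.inf s.sup)

open Classical in
/-- the monomial of a shortest trek, zero if there is no trek -/
noncomputable def shortVal (E : Fin n → Fin n → Prop) (i j : Fin n) : Par n :=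
  if h : ∃ P, P ∈ treks E i j ∧ ∀ Q ∈ treks E i j, len P ≤ len Q then trekMon h.choose else 0

/-- the shortest trek map -/
noncomputable def psi (E : Fin n → Fin n → Prop) : MvPolynomial (Sym2 (Fin n)) ℂ →ₐ[ℂ] Par n :=
  aeval (fun s => shortVal E s.inf s.sup)

/-- `P` is the only shortest trek -/
def Uniq (E : Fin n → Fin n → Prop) (i j : Fin n) (P : Fin n × List (Fin n) × List (Fin n)) :
    Prop :=
  P ∈ treks E i j ∧ (∀ Q ∈ treks E i j, len P ≤ len Q) ∧
    ∀ Q ∈ treks E i j, (∀ Q' ∈ treks E i j, len Q ≤ len Q') → Q = P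

lemma Uniq.swap {i j t : Fin n} {l r : List (Fin n)} (h : Uniq E i j (t, l, r)) :
    Uniq E j i (t, r, l) := by
  obtain ⟨h1, h2, h3⟩ := h
  refine ⟨treks_swap.mp h1, ?_, ?_⟩
  · rintro ⟨t', l', r'⟩ hQ
    rw [len_swap, len_swap t']
    exact h2 _ (treks_swap.mp hQ)
  · rintro ⟨t', l', r'⟩ hQ hQ2
    have h4 := h3 (t', r', l') (treks_swap.mp hQ) (by
      rintro ⟨t'', l'', r''⟩ hQ'
      rw [len_swap, len_swap t'']
      exact hQ2 _ (treks_swap.mp hQ'))
    simp only [Prod.mk.injEq] at h4 ⊢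
    exact ⟨h4.1, h4.2.2, h4.2.1⟩

lemma shortVal_uniq {i j : Fin n} {P : Fin n × List (Fin n) × List (Fin n)}
    (h : Uniq E i j P) : shortVal E i j = trekMon P := by
  have h1 : ∃ P, P ∈ treks E i j ∧ ∀ Q ∈ treks E i j, len P ≤ len Q := ⟨P, h.1, h.2.1⟩
  rw [shortVal, dif_pos h1, h.2.2 _ h1.choose_spec.1 h1.choose_spec.2]

lemma psi_uniq {i j : Fin n} {P : Fin n × List (Fin n) × List (Fin n)}
    (h : Uniq E i j P) : psi E (X s(i, j)) = trekMon P := by
  rw [psi, aeval_X, Sym2.inf_mk, Sym2.sup_mk]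
  rcases le_total i j with hij | hij
  · rw [inf_eq_left.mpr hij, sup_eq_right.mpr hij, shortVal_uniq h]
  · rw [inf_eq_right.mpr hij, sup_eq_left.mpr hij]
    obtain ⟨t, l, r⟩ := P
    rw [shortVal_uniq h.swap, trekMon_swap]

lemma psi_empty {i j : Fin n} (h : ¬ (treks E i j).Nonempty) : psi E (X s(i, j)) = 0 := by
  have key : ∀ i j, ¬ (treks E i j).Nonempty → shortVal E i j = 0 := by
    intro i j h
    rw [shortVal, dif_neg]
    rintro ⟨P, hP, -⟩
    exact h ⟨P, hP⟩
  rw [psi, aeval_X, Sym2.inf_mk, Sym2.sup_mk]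
  rcases le_total i j with hij | hij
  · rw [inf_eq_left.mpr hij, sup_eq_right.mpr hij, key i j h]
  · rw [inf_eq_right.mpr hij, sup_eq_left.mpr hij, key j i]
    rintro ⟨⟨t, l, r⟩, hP⟩
    exact h ⟨_, treks_swap.mp hP⟩

section

variable (hE : ∀ i j, E i j → i < j)

include hE

lemma phi_X (i j : Fin n) : phi E (X s(i, j)) = cov E i j := by
  rw [phi, aeval_X, Sym2.inf_mk, Sym2.sup_mk]
  rcases le_total i j with hij | hij
  · rw [inf_eq_left.mpr hij, sup_eq_right.mpr hij]
  · rw [inf_eq_right.mpr hij, sup_eq_left.mpr hij, cov_swap hE]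

lemma low_uniq {i j : Fin n} {P : Fin n × List (Fin n) × List (Fin n)}
    (h : Uniq E i j P) : low hE i j = trekMon P ∧ dist E i j = len P := by
  classical
  have hd : dist E i j = len P := by
    apply le_antisymm (dist_le h.1)
    obtain ⟨Q, hQ, h1⟩ := exists_dist ⟨P, h.1⟩
    rw [← h1]
    exact h.2.1 Q hQ
  refine ⟨?_, hd⟩
  have : (TF hE i j).filter (fun P => len P = dist E i j) = {P} := by
    ext Q
    rw [Finset.mem_filter, mem_TF, Finset.mem_singleton]
    constructor
    · rintro ⟨h1, h2⟩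
      refine h.2.2 Q h1 (fun Q' hQ' => ?_)
      rw [h2, hd]
      exact h.2.1 Q' hQ'
    · rintro rfl
      exact ⟨h.1, hd.symm⟩
  rw [low, this, Finset.sum_singleton]

lemma uniq_self (i : Fin n) : Uniq E i i (i, [i], [i]) := by
  refine ⟨(treks_self hE).mpr rfl, fun Q hQ => ?_, fun Q hQ _ => (treks_self hE).mp hQ⟩
  rw [(treks_self hE).mp hQ]

lemma uniq_edge {i j : Fin n} (h : E i j) : Uniq E i j (i, [i], [j, i]) := by
  have hij := hE _ _ h
  have hmem : ((i, [i], [j, i]) : Fin n × List (Fin n) × List (Fin n)) ∈ treks E i j := by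
    refine ⟨IsUp.nil i, IsUp.cons h (IsUp.nil i), ?_⟩
    intro v hv _
    simpa using hv
  have hlen : len ((i, [i], [j, i]) : Fin n × List (Fin n) × List (Fin n)) = 1 := rfl
  refine ⟨hmem, fun Q hQ => ?_, fun Q hQ hQ2 => ?_⟩
  · rw [hlen]
    have h1 := dist_pos hij.ne ⟨Q, hQ⟩
    have h2 := dist_le hQ
    omega
  · have h1 := hQ2 _ hmem
    rw [hlen] at h1
    obtain ⟨v, hv, Q', hQ', rfl⟩ := (treks_cons hE hij).mp hQ
    rw [len_cons hQ'] at h1
    have h2 : i = v := by
      by_contra hne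
      have h3 := dist_pos hne ⟨Q', hQ'⟩
      have h4 := dist_le hQ'
      omega
    subst h2
    rw [treks_self hE] at hQ'
    rw [hQ']

omit hE in
lemma trekMon_edge (i j : Fin n) : trekMon ((i, [i], [j, i]) : Fin n × List (Fin n) × List (Fin n))
    = X (Sum.inl i) * X (Sum.inr (i, j)) := by
  simp [trekMon, pathMon]

end

/-- the variables of the vertices and the edges -/
abbrev PB (E : Fin n → Fin n → Prop) : Type :=
  MvPolynomial (Fin n ⊕ {e : Fin n × Fin n // E e.1 e.2}) ℂ

/-- the inclusion -/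
noncomputable def beta (E : Fin n → Fin n → Prop) :
    PB E →ₐ[ℂ] MvPolynomial (Sym2 (Fin n)) ℂ :=
  aeval (Sum.elim (fun i => X s(i, i)) (fun e => X s(e.1.1, e.1.2)))

/-- the lowest terms -/
noncomputable def lowB (E : Fin n → Fin n → Prop) : PB E →ₐ[ℂ] Par n :=
  aeval (Sum.elim (fun i => X (Sum.inl i)) (fun e => X (Sum.inl e.1.1) * X (Sum.inr e.1)))

lemma lowB_inj : Function.Injective (lowB E) := by
  let K := FractionRing (Par n)
  let ρ : Par n →ₐ[ℂ] K := aeval (Sum.elim (fun i => algebraMap (Par n) K (X (Sum.inl i)))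
    (fun e => algebraMap (Par n) K (X (Sum.inr e)) / algebraMap (Par n) K (X (Sum.inl e.1))))
  let f : Fin n ⊕ {e : Fin n × Fin n // E e.1 e.2} → Fin n ⊕ (Fin n × Fin n) :=
    Sum.map id Subtype.val
  have hf : Function.Injective f := Sum.map_injective.mpr ⟨fun _ _ h => h, Subtype.val_injective⟩
  have h : ∀ q : PB E, ρ (lowB E q) = algebraMap (Par n) K (rename f q) := by
    intro q
    have : (ρ.comp (lowB E)) = (IsScalarTower.toAlgHom ℂ (Par n) K).comp (rename f) := by
      apply algHom_ext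
      rintro (i | e)
      · simp only [AlgHom.comp_apply, lowB, aeval_X, Sum.elim_inl, ρ, rename_X]
        rfl
      · simp only [AlgHom.comp_apply, lowB, aeval_X, Sum.elim_inr, ρ, rename_X, map_mul,
          Sum.elim_inl]
        have hne : algebraMap (Par n) K (X (Sum.inl e.1.1)) ≠ 0 := by
          intro h0
          have := (IsFractionRing.injective (Par n) K) (h0.trans (map_zero _).symm)
          exact X_ne_zero _ this
        rw [mul_div_cancel₀ _ hne]
        rfl
    exact DFunLike.congr_fun this q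
  intro p q hpq
  have h1 := congrArg ρ hpq
  rw [h, h] at h1
  exact rename_injective f hf (IsFractionRing.injective (Par n) K h1)

section

variable (hE : ∀ i j, E i j → i < j)

include hE

lemma psi_beta (q : PB E) : psi E (beta E q) = lowB E q := by
  have : (psi E).comp (beta E) = lowB E := by
    apply algHom_ext
    rintro (i | e)
    · simp only [AlgHom.comp_apply, beta, lowB, aeval_X, Sum.elim_inl]
      rw [psi_uniq (uniq_self hE i)]
      simp [trekMon, pathMon]
    · simp only [AlgHom.comp_apply, beta, lowB, aeval_X, Sum.elim_inr]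
      rw [psi_uniq (uniq_edge hE e.2), trekMon_edge]
  exact DFunLike.congr_fun this q

lemma psi_beta_inj {q : PB E} (h : psi E (beta E q) = 0) : q = 0 := by
  rw [psi_beta hE] at h
  exact lowB_inj (h.trans (map_zero _).symm)

lemma phi_beta_inj {q : PB E} (h : phi E (beta E q) = 0) : q = 0 := by
  let F : PB E →ₐ[ℂ] Polynomial (Par n) := (scale n).comp ((phi E).comp (beta E))
  have hF : Function.Injective F := by
    refine inj_of_LT F (lowB E) (Sum.elim (fun _ => 0) (fun _ => 1)) ?_ lowB_inj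
    rintro (i | e)
    · simp only [F, AlgHom.comp_apply, beta, lowB, aeval_X, Sum.elim_inl]
      rw [phi_X hE]
      have := LT_cov hE i i
      rwa [dist_self hE, low_self hE] at this
    · simp only [F, AlgHom.comp_apply, beta, lowB, aeval_X, Sum.elim_inr]
      rw [phi_X hE]
      have := LT_cov hE e.1.1 e.1.2
      obtain ⟨h1, h2⟩ := low_uniq hE (uniq_edge hE e.2)
      rw [h1, h2, trekMon_edge] at this
      exact this
  apply hF
  change scale n (phi E (beta E q)) = F 0
  rw [h, map_zero, map_zero]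

end

end Pool.Agent.X21.Dag
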