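import Mathlib
import Pool.Agent.X21.Dag.D3

/-!
# The matching
-/

set_option autoImplicit false

namespace Pool.Agent.X21.Dag

open MvPolynomial

section match_

variable {M : Type} [AddCommMonoid M]

/-- `v` is zero or a nonzero multiple of a monomial -/
def IsMon (v : AddMonoidAlgebra ℂ M) : Prop :=
  v = 0 ∨ ∃ (m : M) (c : ℂ), c ≠ 0 ∧ v = AddMonoidAlgebra.single m c

lemma IsMon.mul {v w : AddMonoidAlgebra ℂ M} (hv : IsMon v) (hw : IsMon w) : IsMon (v * w) := by
  rcases hv with rfl | ⟨m, c, hc, rfl⟩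
  · left; rw [zero_mul]
  rcases hw with rfl | ⟨m', c', hc', rfl⟩
  · left; rw [mul_zero]
  right
  exact ⟨m + m', c * c', mul_ne_zero hc hc', AddMonoidAlgebra.single_mul_single ..⟩

lemma IsMon.one : IsMon (1 : AddMonoidAlgebra ℂ M) := Or.inr ⟨0, 1, one_ne_zero, rfl⟩

lemma IsMon.prod {ι : Type} (s : Finset ι) {v : ι → AddMonoidAlgebra ℂ M}
    (h : ∀ i ∈ s, IsMon (v i)) : IsMon (∏ i ∈ s, v i) := by
  classical
  induction s using Finset.induction_on with
  | empty => rw [Finset.prod_empty]; exact IsMon.one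
  | insert a s ha ih =>
    rw [Finset.prod_insert ha]
    exact (h a (Finset.mem_insert_self a s)).mul
      (ih fun i hi => h i (Finset.mem_insert_of_mem hi))

lemma exists_match {ι : Type} (s : Finset ι) (ε : ι → ℂ) (v : ι → AddMonoidAlgebra ℂ M)
    (hv : ∀ i ∈ s, IsMon (v i)) (hsum : ∑ i ∈ s, ε i • v i = 0) {i0 : ι} (hi0 : i0 ∈ s)
    (hε : ε i0 ≠ 0) (h0 : v i0 ≠ 0) :
    ∃ i ∈ s, i ≠ i0 ∧ ∃ κ : ℂ, κ ≠ 0 ∧ v i0 = κ • v i := by
  classical
  rcases hv i0 hi0 with h | ⟨m0, c0, hc0, h⟩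
  · exact absurd h h0
  by_contra hcon
  push Not at hcon
  have h1 := congrArg (fun a => a.coeff m0) hsum
  simp only [AddMonoidAlgebra.coeff_sum, AddMonoidAlgebra.coeff_smul] at h1
  rw [Finsupp.finsetSum_apply, Finset.sum_eq_single_of_mem i0 hi0] at h1
  · rw [h] at h1
    simp [AddMonoidAlgebra.coeff_single, hε, hc0] at h1
  · intro i hi hne
    rcases hv i hi with h2 | ⟨m, c, hc, h2⟩
    · rw [h2]; simp
    · by_cases hm : m = m0
      · exfalso
        refine hcon i hi hne (c0 / c) (div_ne_zero hc0 hc) ?_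
        rw [h, h2, hm, AddMonoidAlgebra.smul_single, smul_eq_mul, div_mul_cancel₀ _ hc]
      · rw [h2]
        simp [AddMonoidAlgebra.coeff_single, hm]

end match_

variable {n : ℕ} {E : Fin n → Fin n → Prop}

/-- row labels -/
def rv (E : Fin n → Fin n → Prop) (i j : Fin n) : Option {v : Fin n // E v j} → Fin n
  | none => i
  | some v => v

/-- column labels -/
def cv (E : Fin n → Fin n → Prop) (j : Fin n) : Option {v : Fin n // E v j} → Fin n
  | none => j
  | some v => v

section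

variable (hE : ∀ i j, E i j → i < j)

include hE

lemma cov_det [DecidableRel E] {i j : Fin n} (hij : i < j) :
    (Matrix.of fun r c : Option {v : Fin n // E v j} => cov E (rv E i j r) (cv E j c)).det = 0 := by
  classical
  rw [← Matrix.exists_mulVec_eq_zero_iff]
  refine ⟨fun c => c.elim (1 : Par n) (fun v => - X (Sum.inr ((v : Fin n), j))), ?_, ?_⟩
  · intro h
    have := congrFun h none
    simp at this
  · funext r
    have hr : rv E i j r < j := by
      rcases r with _ | v
      · exact hij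
      · exact hE _ _ v.2
    rw [Matrix.mulVec, dotProduct, Fintype.sum_option]
    simp only [Matrix.of_apply, Option.elim, mul_one, Pi.zero_apply]
    change cov E (rv E i j r) j + ∑ v : {v : Fin n // E v j}, cov E (rv E i j r) v * _ = 0
    rw [cov_rec hE hr, ← Finset.sum_add_distrib]
    refine Finset.sum_eq_zero fun v _ => ?_
    ring

lemma matching [DecidableRel E] {M : Type} [AddCommMonoid M]
    (θ : MvPolynomial (Sym2 (Fin n)) ℂ →ₐ[ℂ] AddMonoidAlgebra ℂ M) (hm : ∀ s, IsMon (θ (X s)))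
    (hker : ∀ g, θ g = 0 ↔ phi E g = 0) {i j : Fin n} (hij : i < j)
    (hT : (treks E i j).Nonempty) :
    ∃ π : Equiv.Perm (Option {v : Fin n // E v j}), π ≠ 1 ∧ ∃ κ : ℂ, κ ≠ 0 ∧
      ∏ r, cov E (rv E i j r) (cv E j r) = κ • ∏ r, cov E (rv E i j (π r)) (cv E j r) := by
  classical
  let T : Type := Option {v : Fin n // E v j}
  let G : T → T → MvPolynomial (Sym2 (Fin n)) ℂ := fun r c => X s(rv E i j r, cv E j c)
  have hφ : ∀ π : Equiv.Perm T,
      phi E (∏ r, G (π r) r) = ∏ r, cov E (rv E i j (π r)) (cv E j r) := by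
    intro π
    rw [map_prod]
    refine Finset.prod_congr rfl fun r _ => ?_
    exact phi_X hE _ _
  have h1 : phi E (∑ π : Equiv.Perm T, (((Equiv.Perm.sign π : ℤ) : ℂ)) • ∏ r, G (π r) r) = 0 := by
    have h := cov_det hE hij
    rw [Matrix.det_apply] at h
    rw [map_sum, ← h]
    refine Finset.sum_congr rfl fun π _ => ?_
    rw [map_smul, hφ]
    rcases Int.units_eq_one_or (Equiv.Perm.sign π) with h | h
    · rw [h, Units.val_one, Int.cast_one, one_smul, one_smul]
      rfl
    · rw [h, Units.val_neg, Units.val_one, Int.cast_neg, Int.cast_one, neg_smul, one_smul,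
        Units.neg_smul, one_smul]
      rfl
  have h2 := (hker _).mpr h1
  rw [map_sum] at h2
  have h3 : ∑ π : Equiv.Perm T, (((Equiv.Perm.sign π : ℤ) : ℂ)) • θ (∏ r, G (π r) r) = 0 := by
    rw [← h2]
    refine Finset.sum_congr rfl fun π _ => ?_
    rw [map_smul]
  have hne : θ (∏ r, G ((1 : Equiv.Perm T) r) r) ≠ 0 := by
    rw [Ne, hker, hφ, Finset.prod_eq_zero_iff]
    rintro ⟨r, -, hr⟩
    rcases r with _ | v
    · exact (cov_ne hE).mpr hT hr
    · have h4 : cov E v v = 0 := hr
      rw [cov_self hE] at h4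
      exact X_ne_zero _ h4
  obtain ⟨π, -, hπ, κ, hκ, h4⟩ := exists_match Finset.univ
    (fun π : Equiv.Perm T => ((Equiv.Perm.sign π : ℤ) : ℂ))
    (fun π => θ (∏ r, G (π r) r)) (by
      intro π _
      rw [map_prod]
      exact IsMon.prod _ fun r _ => hm _) h3 (Finset.mem_univ 1) (by simp) hne
  refine ⟨π, hπ, κ, hκ, ?_⟩
  have h5 : θ (∏ r, G ((1 : Equiv.Perm T) r) r - κ • ∏ r, G (π r) r) = 0 := by
    rw [map_sub, map_smul, h4, sub_self]
  rw [hker, map_sub, map_smul, hφ, hφ, sub_eq_zero] at h5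
  exact h5

end

end Pool.Agent.X21.Dag
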