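import Mathlib
import Pool.Agent.X21.Dag.D4

/-!
# The induction
-/

set_option autoImplicit false

namespace Pool.Agent.X21.Dag

open MvPolynomial

variable {n : ℕ} {E : Fin n → Fin n → Prop}

/-- rational in the vertices and edges, with the same fraction for both maps -/
def Dat (E : Fin n → Fin n → Prop) (s : MvPolynomial (Sym2 (Fin n)) ℂ) : Prop :=
  ∃ D b : PB E, D ≠ 0 ∧ phi E s * phi E (beta E D) = phi E (beta E b) ∧
    psi E s * psi E (beta E D) = psi E (beta E b)

lemma Dat.beta (b : PB E) : Dat E (beta E b) :=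
  ⟨1, b, one_ne_zero, by rw [map_one, map_one, mul_one], by rw [map_one, map_one, mul_one]⟩

lemma Dat.add {s t : MvPolynomial (Sym2 (Fin n)) ℂ} (hs : Dat E s) (ht : Dat E t) :
    Dat E (s + t) := by
  obtain ⟨D, b, hD, h1, h2⟩ := hs
  obtain ⟨D', b', hD', h1', h2'⟩ := ht
  refine ⟨D * D', b * D' + b' * D, mul_ne_zero hD hD', ?_, ?_⟩
  · simp only [map_add, map_mul]
    rw [← h1, ← h1']
    ring
  · simp only [map_add, map_mul]
    rw [← h2, ← h2']
    ring

lemma Dat.mul {s t : MvPolynomial (Sym2 (Fin n)) ℂ} (hs : Dat E s) (ht : Dat E t) :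
    Dat E (s * t) := by
  obtain ⟨D, b, hD, h1, h2⟩ := hs
  obtain ⟨D', b', hD', h1', h2'⟩ := ht
  refine ⟨D * D', b * b', mul_ne_zero hD hD', ?_, ?_⟩
  · simp only [map_mul]
    rw [← h1, ← h1']
    ring
  · simp only [map_mul]
    rw [← h2, ← h2']
    ring

lemma Dat.one : Dat E 1 := by
  have := Dat.beta (E := E) 1
  rwa [map_one] at this

lemma Dat.prod {ι : Type} (s : Finset ι) {v : ι → MvPolynomial (Sym2 (Fin n)) ℂ}
    (h : ∀ i ∈ s, Dat E (v i)) : Dat E (∏ i ∈ s, v i) := by
  classical
  induction s using Finset.induction_on with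
  | empty => rw [Finset.prod_empty]; exact Dat.one
  | insert a s ha ih =>
    rw [Finset.prod_insert ha]
    exact (h a (Finset.mem_insert_self a s)).mul
      (ih fun i hi => h i (Finset.mem_insert_of_mem hi))

lemma Dat.div {s t : MvPolynomial (Sym2 (Fin n)) ℂ} {c : PB E} (hc : c ≠ 0)
    (h1 : phi E s * phi E (Dag.beta E c) = phi E t) (h2 : psi E s * psi E (Dag.beta E c) = psi E t)
    (ht : Dat E t) : Dat E s := by
  obtain ⟨D, b, hD, h3, h4⟩ := ht
  refine ⟨c * D, b, mul_ne_zero hc hD, ?_, ?_⟩
  · rw [map_mul, map_mul, ← mul_assoc, h1, h3]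
  · rw [map_mul, map_mul, ← mul_assoc, h2, h4]

section

variable (hE : ∀ i j, E i j → i < j)

include hE

lemma unique_of_mul {i j : Fin n} (m m' : Fin n ⊕ (Fin n × Fin n) →₀ ℕ) (κ : ℂ)
    (h : low hE i j * monomial m 1 = κ • monomial m' 1) (hT : (treks E i j).Nonempty) :
    (∃ P, Uniq E i j P) ∧ κ = 1 := by
  classical
  have key : ∀ P ∈ treks E i j, len P = dist E i j → trekExp P + m = m' ∧ κ = 1 := by
    intro P hP hlen
    have h1 := congrArg (coeff (trekExp P + m)) h
    rw [coeff_mul_monomial, mul_one, low, coeff_sum,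
      Finset.sum_eq_single_of_mem P (Finset.mem_filter.mpr ⟨(mem_TF hE).mpr hP, hlen⟩)] at h1
    · rw [trekMon_eq, coeff_monomial, if_pos rfl, coeff_smul, coeff_monomial] at h1
      split_ifs at h1 with h2
      · rw [smul_eq_mul, mul_one] at h1
        exact ⟨h2.symm, h1.symm⟩
      · rw [smul_zero] at h1
        exact absurd h1 one_ne_zero
    · intro Q hQ hne
      rw [Finset.mem_filter, mem_TF] at hQ
      rw [trekMon_eq, coeff_monomial, if_neg]
      intro h2
      exact hne (trekExp_inj hE _ i j rfl Q hQ.1 P hP h2)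
  obtain ⟨P, hP, hlen⟩ := exists_dist hT
  have hk := key P hP hlen
  refine ⟨⟨P, hP, fun Q hQ => ?_, fun Q hQ hQ2 => ?_⟩, hk.2⟩
  · rw [hlen]
    exact dist_le hQ
  · have h1 : len Q = dist E i j := by
      apply le_antisymm _ (dist_le hQ)
      rw [← hlen]
      exact hQ2 P hP
    have h2 := key Q hQ h1
    exact trekExp_inj hE _ i j rfl Q hQ P hP (add_right_cancel (h2.1.trans hk.1.symm))

lemma step [DecidableRel E] {M : Type} [AddCommMonoid M]
    (θ : MvPolynomial (Sym2 (Fin n)) ℂ →ₐ[ℂ] AddMonoidAlgebra ℂ M) (hm : ∀ s, IsMon (θ (X s)))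
    (hker : ∀ g, θ g = 0 ↔ phi E g = 0) {i j : Fin n} (hij : i < j)
    (hT : (treks E i j).Nonempty) (hnE : ¬ E i j)
    (hIH : ∀ i' j', (treks E i' j').Nonempty → dist E i' j' < dist E i j →
      (∃ P, Uniq E i' j' P) ∧ Dat E (X s(i', j'))) :
    (∃ P, Uniq E i j P) ∧ Dat E (X s(i, j)) := by
  classical
  obtain ⟨π, hπ, κ, hκ, h⟩ := matching hE θ hm hker hij hT
  have hrv : ∀ r, rv E i j r < j := by
    intro r
    rcases r with _ | v
    · exact hij
    · exact hE _ _ v.2
  have hF : ∀ r, (treks E (rv E i j r) (cv E j r)).Nonempty := by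
    intro r
    rcases r with _ | v
    · exact hT
    · rw [← cov_ne hE]
      change cov E v v ≠ 0
      rw [cov_self hE]
      exact X_ne_zero _
  have hne : ∏ r, cov E (rv E i j r) (cv E j r) ≠ 0 := by
    rw [Finset.prod_ne_zero_iff]
    intro r _
    exact (cov_ne hE).mpr (hF r)
  have hne' : ∏ r, cov E (rv E i j (π r)) (cv E j r) ≠ 0 := by
    intro h0
    apply hne
    rw [h, h0, smul_zero]
  have hF' : ∀ r, (treks E (rv E i j (π r)) (cv E j r)).Nonempty := by
    intro r
    rw [Finset.prod_ne_zero_iff] at hne'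
    exact (cov_ne hE).mp (hne' r (Finset.mem_univ r))
  have hL := LT.prod Finset.univ (fun r _ => LT_cov hE (rv E i j r) (cv E j r))
  have hL' := LT.prod Finset.univ (fun r _ => LT_cov hE (rv E i j (π r)) (cv E j r))
  have hu : ∏ r, low hE (rv E i j r) (cv E j r) ≠ 0 := by
    rw [Finset.prod_ne_zero_iff]
    intro r _
    exact low_ne hE (hF r)
  have hu' : ∏ r, low hE (rv E i j (π r)) (cv E j r) ≠ 0 := by
    rw [Finset.prod_ne_zero_iff]
    intro r _
    exact low_ne hE (hF' r)
  obtain ⟨hw, hl⟩ := hL.unique hL' hu hu' hκ (by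
    have := congrArg (scale n) h
    rwa [map_prod, map_smul, map_prod] at this)
  have hsum : ∑ r, dist E (rv E i j (π r)) (cv E j r) = dist E i j := by
    rw [← hw, Fintype.sum_option]
    have : ∑ v : {v : Fin n // E v j}, dist E (rv E i j (some v)) (cv E j (some v)) = 0 := by
      refine Finset.sum_eq_zero fun v _ => ?_
      exact dist_self hE v
    rw [this, add_zero]
    rfl
  have hlt : ∀ r, dist E (rv E i j (π r)) (cv E j r) < dist E i j := by
    intro r0
    by_contra hcon
    push Not at hcon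
    have h0 : ∀ r, r ≠ r0 → rv E i j (π r) = cv E j r := by
      intro r hr
      by_contra hne2
      have h1 := dist_pos hne2 (hF' r)
      rw [← hsum, ← Finset.add_sum_erase _ _ (Finset.mem_univ r0)] at hcon
      have h2 : dist E (rv E i j (π r)) (cv E j r)
          ≤ ∑ x ∈ Finset.univ.erase r0, dist E (rv E i j (π x)) (cv E j x) :=
        Finset.single_le_sum (f := fun x => dist E (rv E i j (π x)) (cv E j x))
          (fun _ _ => Nat.zero_le _) (Finset.mem_erase.mpr ⟨hr, Finset.mem_univ r⟩)
      omega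
    by_cases hr0 : r0 = none
    · subst hr0
      apply hπ
      have hs : ∀ v, π (some v) = some v := by
        intro v
        have h1 := h0 (some v) (Option.some_ne_none v)
        rcases hv : π (some v) with _ | w
        · rw [hv] at h1
          exfalso
          apply hnE
          have h2 : i = v := h1
          rw [h2]
          exact v.2
        · rw [hv] at h1
          have h2 : (w : Fin n) = v := h1
          rw [Subtype.ext h2]
      refine Equiv.ext fun r => ?_
      rcases r with _ | v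
      · rcases hv : π none with _ | w
        · rfl
        · exfalso
          have h1 := hs w
          rw [← hv] at h1
          have h2 := π.injective h1
          rw [hv] at h2
          exact Option.some_ne_none w h2
      · exact hs v
    · have h1 := h0 none (Ne.symm hr0)
      have h2 := hrv (π none)
      rw [h1] at h2
      exact absurd h2 (lt_irrefl j)
  have hall : ∀ r, (∃ P, Uniq E (rv E i j (π r)) (cv E j r) P) ∧
      Dat E (X s(rv E i j (π r), cv E j r)) := fun r => hIH _ _ (hF' r) (hlt r)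
  choose P hP using fun r => (hall r).1
  have e1 : ∏ r, low hE (rv E i j (π r)) (cv E j r) = monomial (∑ r, trekExp (P r)) 1 := by
    rw [monomial_sum_one]
    refine Finset.prod_congr rfl fun r _ => ?_
    rw [(low_uniq hE (hP r)).1, trekMon_eq]
  have e2 : ∏ v : {v : Fin n // E v j}, (X (Sum.inl (v : Fin n)) : Par n)
      = monomial (∑ v : {v : Fin n // E v j}, Finsupp.single (Sum.inl (v : Fin n)) 1) 1 := by
    rw [monomial_sum_one]
    rfl
  have e3 : ∏ r, low hE (rv E i j r) (cv E j r)
      = low hE i j * ∏ v : {v : Fin n // E v j}, (X (Sum.inl (v : Fin n)) : Par n) := by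
    rw [Fintype.prod_option]
    congr 1
    refine Finset.prod_congr rfl fun v _ => ?_
    exact low_self hE v
  have e4 : ∏ r, cov E (rv E i j r) (cv E j r)
      = cov E i j * ∏ v : {v : Fin n // E v j}, (X (Sum.inl (v : Fin n)) : Par n) := by
    rw [Fintype.prod_option]
    congr 1
    refine Finset.prod_congr rfl fun v _ => ?_
    exact cov_self hE v
  obtain ⟨⟨P0, hP0⟩, hκ1⟩ := unique_of_mul hE
    (∑ v : {v : Fin n // E v j}, Finsupp.single (Sum.inl (v : Fin n)) 1)
    (∑ r, trekExp (P r)) κ (by rw [← e2, ← e3, hl, e1]) hT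
  refine ⟨⟨P0, hP0⟩, ?_⟩
  subst hκ1
  rw [one_smul] at h hl
  refine Dat.div (c := ∏ v : {v : Fin n // E v j}, X (Sum.inl (v : Fin n)))
    (t := ∏ r, X s(rv E i j (π r), cv E j r)) ?_ ?_ ?_ (Dat.prod _ fun r _ => (hall r).2)
  · rw [Finset.prod_ne_zero_iff]
    intro v _
    exact X_ne_zero _
  · have e5 : phi E (Dag.beta E (∏ v : {v : Fin n // E v j}, X (Sum.inl (v : Fin n))))
        = ∏ v : {v : Fin n // E v j}, (X (Sum.inl (v : Fin n)) : Par n) := by
      rw [map_prod, map_prod]
      refine Finset.prod_congr rfl fun v _ => ?_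
      rw [Dag.beta, aeval_X, Sum.elim_inl, phi_X hE, cov_self hE]
    rw [e5, phi_X hE, ← e4, h, map_prod]
    refine Finset.prod_congr rfl fun r _ => ?_
    rw [phi_X hE]
  · have e5 : psi E (Dag.beta E (∏ v : {v : Fin n // E v j}, X (Sum.inl (v : Fin n))))
        = ∏ v : {v : Fin n // E v j}, (X (Sum.inl (v : Fin n)) : Par n) := by
      rw [map_prod, map_prod]
      refine Finset.prod_congr rfl fun v _ => ?_
      rw [psi_beta hE, lowB, aeval_X, Sum.elim_inl]
    rw [e5, psi_uniq hP0, ← (low_uniq hE hP0).1, ← e3, hl, map_prod]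
    refine Finset.prod_congr rfl fun r _ => ?_
    rw [psi_uniq (hP r), ← (low_uniq hE (hP r)).1]

lemma all_pairs {M : Type} [AddCommMonoid M]
    (θ : MvPolynomial (Sym2 (Fin n)) ℂ →ₐ[ℂ] AddMonoidAlgebra ℂ M) (hm : ∀ s, IsMon (θ (X s)))
    (hker : ∀ g, θ g = 0 ↔ phi E g = 0) : ∀ (d : ℕ) (i j : Fin n), (treks E i j).Nonempty →
      dist E i j = d → (∃ P, Uniq E i j P) ∧ Dat E (X s(i, j)) := by
  classical
  intro d
  induction d using Nat.strong_induction_on with
  | _ d ih =>
    have key : ∀ i j : Fin n, i < j → (treks E i j).Nonempty → dist E i j = d →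
        (∃ P, Uniq E i j P) ∧ Dat E (X s(i, j)) := by
      intro i j hij hT hd
      by_cases h : E i j
      · refine ⟨⟨_, uniq_edge hE h⟩, ?_⟩
        have := Dat.beta (E := E) (X (Sum.inr ⟨(i, j), h⟩))
        rwa [Dag.beta, aeval_X, Sum.elim_inr] at this
      · refine step hE θ hm hker hij hT h ?_
        intro i' j' hT' hlt
        exact ih _ (hd ▸ hlt) i' j' hT' rfl
    intro i j hT hd
    rcases lt_trichotomy i j with hij | hij | hij
    · exact key i j hij hT hd
    · subst hij
      refine ⟨⟨_, uniq_self hE i⟩, ?_⟩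
      have := Dat.beta (E := E) (X (Sum.inl i))
      rwa [Dag.beta, aeval_X, Sum.elim_inl] at this
    · have hT' : (treks E j i).Nonempty := by
        obtain ⟨⟨t, l, r⟩, hP⟩ := hT
        exact ⟨_, treks_swap.mp hP⟩
      obtain ⟨⟨⟨t, l, r⟩, hP⟩, h2⟩ := key j i hij hT' (by rw [dist_swap, hd])
      refine ⟨⟨_, hP.swap⟩, ?_⟩
      rw [Sym2.eq_swap]
      exact h2

/-- the main theorem -/
theorem main {M : Type} [AddCommMonoid M]
    (θ : MvPolynomial (Sym2 (Fin n)) ℂ →ₐ[ℂ] AddMonoidAlgebra ℂ M) (hm : ∀ s, IsMon (θ (X s)))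
    (hker : ∀ g, θ g = 0 ↔ phi E g = 0) :
    (∀ i j, (treks E i j).Nonempty → ∃ P, Uniq E i j P) ∧
      RingHom.ker (phi E) = RingHom.ker (psi E) := by
  refine ⟨fun i j hT => (all_pairs hE θ hm hker _ i j hT rfl).1, ?_⟩
  have hD : ∀ g : MvPolynomial (Sym2 (Fin n)) ℂ, Dat E g := by
    intro g
    induction g using MvPolynomial.induction_on with
    | C a =>
      have := Dat.beta (E := E) (C a)
      rwa [Dag.beta, aeval_C] at this
    | add p q hp hq => exact hp.add hq
    | mul_X p s hp =>
      refine hp.mul ?_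
      induction s using Sym2.inductionOn with
      | _ i j =>
        by_cases hT : (treks E i j).Nonempty
        · exact (all_pairs hE θ hm hker _ i j hT rfl).2
        · refine ⟨1, 0, one_ne_zero, ?_, ?_⟩
          · have : cov E i j = 0 := by
              by_contra hne
              exact hT ((cov_ne hE).mp hne)
            rw [phi_X hE, this, zero_mul, map_zero, map_zero]
          · rw [psi_empty hT, zero_mul, map_zero, map_zero]
  ext g
  rw [RingHom.mem_ker, RingHom.mem_ker]
  obtain ⟨D, b, hD0, h1, h2⟩ := hD g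
  constructor
  · intro h
    rw [h, zero_mul] at h1
    have hb := phi_beta_inj hE h1.symm
    rw [hb, map_zero, map_zero] at h2
    rcases mul_eq_zero.mp h2 with h3 | h3
    · exact h3
    · exact absurd (psi_beta_inj hE h3) hD0
  · intro h
    rw [h, zero_mul] at h2
    have hb := psi_beta_inj hE h2.symm
    rw [hb, map_zero, map_zero] at h1
    rcases mul_eq_zero.mp h1 with h3 | h3
    · exact h3
    · exact absurd (phi_beta_inj hE h3) hD0

end

end Pool.Agent.X21.Dag
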